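import Mathlib

set_option autoImplicit false

namespace Pool.Agent.Results.MP_927db0_al.Q1

open Finset

/-- orders of non-normal subgroups -/
def NN (G : Type) [Group G] : Set ℕ := {n | ∃ K : Subgroup G, ¬ K.Normal ∧ Nat.card K = n}

noncomputable def ie (G : Type) [Group G] : ℕ := (NN G).ncard

abbrev A := alternatingGroup (Fin 5)

theorem cardA : Nat.card A = 60 := by
  have := two_mul_nat_card_alternatingGroup (α := Fin 5)
  rw [Nat.card_perm, Nat.card_eq_fintype_card (α := Fin 5), Fintype.card_fin] at this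
  have h : 2 * Nat.card A = 120 := this
  omega

theorem ordersA (U : Subgroup A) (h1 : U ≠ ⊥) (h2 : U ≠ ⊤) :
    Nat.card U ∈ ({2, 3, 4, 5, 6, 10, 12} : Finset ℕ) := by
  have h : U.normalCore.index ∣ U.index.factorial := by
    rw [Subgroup.normalCore_eq_ker, Subgroup.index_ker, Subgroup.index_eq_card, ← Nat.card_perm]
    exact Subgroup.card_subgroup_dvd_card (MulAction.toPermHom A (A ⧸ U)).range
  have hc : U.normalCore = ⊥ := (U.normalCore_normal.eq_bot_or_eq_top).resolve_right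
    (fun e => h2 (top_le_iff.1 (e ▸ U.normalCore_le)))
  rw [hc, Subgroup.index_bot, cardA] at h
  have hm := U.card_mul_index
  rw [cardA] at hm
  have n1 : Nat.card U ≠ 1 := fun e => h1 (Subgroup.card_eq_one.1 e)
  have n2 : U.index ≠ 1 := fun e => h2 (Subgroup.index_eq_one.1 e)
  have hd : U.index ∈ Nat.divisors 60 := Nat.mem_divisors.2 ⟨Dvd.intro_left _ hm, by norm_num⟩
  have : Nat.divisors 60 = {1, 2, 3, 4, 5, 6, 10, 12, 15, 20, 30, 60} := by decide
  rw [this] at hd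
  simp only [mem_insert, mem_singleton] at hd ⊢
  rcases hd with e | e | e | e | e | e | e | e | e | e | e | e <;> rw [e] at h hm n2 <;>
    first | omega | (exfalso; revert h; decide)

def U12 : Subgroup A where
  carrier := {g | g.1 0 = 0}
  one_mem' := rfl
  mul_mem' := by
    intro a b ha hb
    show a.1 (b.1 0) = 0
    rw [show b.1 0 = 0 from hb]; exact ha
  inv_mem' := by
    intro a ha
    show a.1⁻¹ 0 = 0
    rw [Equiv.Perm.inv_eq_iff_eq]; exact (show a.1 0 = 0 from ha).symm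

theorem card12 : Nat.card U12 = 12 := by
  have : Nat.card U12 = (univ.filter (fun g : Equiv.Perm (Fin 5) =>
      Equiv.Perm.sign g = 1 ∧ g 0 = 0)).card := by
    rw [← Fintype.card_coe, ← Nat.card_eq_fintype_card]
    refine Nat.card_congr ⟨fun x => ⟨x.1.1, by simpa using ⟨x.1.2, x.2⟩⟩,
      fun x => ⟨⟨x.1, (mem_filter.1 x.2).2.1⟩, (mem_filter.1 x.2).2.2⟩, fun _ => rfl, fun _ => rfl⟩
  rw [this]; decide +kernel

def P10 (g : Equiv.Perm (Fin 5)) : Prop := ∀ i j : Fin 5, (g i - g j) ^ 2 = (i - j) ^ 2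

instance : DecidablePred P10 := fun g => by unfold P10; infer_instance

def U10 : Subgroup A where
  carrier := {g | P10 g.1}
  one_mem' := fun _ _ => rfl
  mul_mem' := by
    intro a b ha hb i j
    exact (ha (b.1 i) (b.1 j)).trans (hb i j)
  inv_mem' := by
    intro a ha i j
    have := ha (a.1⁻¹ i) (a.1⁻¹ j)
    simpa using this.symm

theorem card10 : Nat.card U10 = 10 := by
  have : Nat.card U10 = (univ.filter (fun g : Equiv.Perm (Fin 5) =>
      Equiv.Perm.sign g = 1 ∧ P10 g)).card := by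
    rw [← Fintype.card_coe, ← Nat.card_eq_fintype_card]
    refine Nat.card_congr ⟨fun x => ⟨x.1.1, by simpa using ⟨x.1.2, x.2⟩⟩,
      fun x => ⟨⟨x.1, (mem_filter.1 x.2).2.1⟩, (mem_filter.1 x.2).2.2⟩, fun _ => rfl, fun _ => rfl⟩
  rw [this]; decide +kernel

theorem exA (d : ℕ) (hd : d ∈ ({2, 3, 4, 5, 10, 12} : Finset ℕ)) :
    ∃ U : Subgroup A, ¬ U.Normal ∧ Nat.card U = d := by
  have : ∃ U : Subgroup A, Nat.card U = d := by
    simp only [mem_insert, mem_singleton] at hd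
    haveI : Fact (Nat.Prime 5) := ⟨by norm_num⟩
    rcases hd with rfl | rfl | rfl | rfl | rfl | rfl
    · exact Sylow.exists_subgroup_card_pow_prime 2 (n := 1) (by rw [cardA]; norm_num)
    · exact Sylow.exists_subgroup_card_pow_prime 3 (n := 1) (by rw [cardA]; norm_num)
    · exact Sylow.exists_subgroup_card_pow_prime 2 (n := 2) (by rw [cardA]; norm_num)
    · exact Sylow.exists_subgroup_card_pow_prime 5 (n := 1) (by rw [cardA]; norm_num)
    · exact ⟨U10, card10⟩
    · exact ⟨U12, card12⟩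
  obtain ⟨U, hU⟩ := this
  refine ⟨U, fun hn => ?_, hU⟩
  rcases hn.eq_bot_or_eq_top with rfl | rfl
  · rw [Subgroup.card_bot] at hU; subst hU; revert hd; decide
  · rw [Subgroup.card_top, cardA] at hU; subst hU; revert hd; decide

section prod
variable {G H : Type} [Group G] [Group H]

theorem card_prod (U : Subgroup G) (V : Subgroup H) :
    Nat.card (U.prod V) = Nat.card U * Nat.card V := by
  rw [Nat.card_congr (U.prodEquiv V).toEquiv, Nat.card_prod]

theorem nn_left {U : Subgroup G} (V : Subgroup H) (h : ¬ U.Normal) : ¬ (U.prod V).Normal :=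
  fun hn => h ⟨fun x hx g => by
    have := hn.conj_mem (x, 1) ⟨hx, V.one_mem⟩ (g, 1)
    exact this.1⟩

theorem nn_right (U : Subgroup G) {V : Subgroup H} (h : ¬ V.Normal) : ¬ (U.prod V).Normal :=
  fun hn => h ⟨fun x hx g => by
    have := hn.conj_mem (1, x) ⟨U.one_mem, hx⟩ (1, g)
    exact this.2⟩

theorem card_split (K : Subgroup (G × H)) :
    ∃ d, d ∣ Nat.card H ∧ Nat.card K = d * Nat.card (K.map (MonoidHom.fst G H)) := by
  let f := (MonoidHom.fst G H).comp K.subtype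
  refine ⟨Nat.card f.ker, ?_, ?_⟩
  · apply Subgroup.card_dvd_of_injective
      (((MonoidHom.snd G H).comp K.subtype).comp f.ker.subtype)
    rw [injective_iff_map_eq_one]
    intro a ha
    exact Subtype.ext (Subtype.ext (Prod.ext a.2 ha))
  · rw [← f.ker.card_mul_index, Subgroup.index_ker, MonoidHom.range_comp, Subgroup.range_subtype]

end prod

theorem NN_prod {H : Type} [Group H] [Finite H] {n : ℕ} (hn : 2 ≤ n) (hH : Nat.card H = 2 ^ n)
    (x : ℕ) : x ∈ NN (A × H) ↔ (∃ j, 1 ≤ j ∧ j ≤ n + 2 ∧ x = 2 ^ j) ∨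
      (∃ j, j ≤ n + 2 ∧ x = 3 * 2 ^ j) ∨ (∃ j, j ≤ n + 1 ∧ x = 5 * 2 ^ j) ∨
      ∃ d ∈ NN H, x = 60 * d := by
  constructor
  · rintro ⟨K, hK, rfl⟩
    obtain ⟨d, hd, hc⟩ := card_split K
    rw [hH, Nat.dvd_prime_pow Nat.prime_two] at hd
    obtain ⟨i, hi, rfl⟩ := hd
    by_cases h1 : K.map (MonoidHom.fst A H) = ⊥
    · rw [h1, Subgroup.card_bot, mul_one] at hc
      refine Or.inl ⟨i, ?_, by omega, hc⟩
      by_contra h0
      obtain rfl : i = 0 := by omega
      rw [pow_zero, Subgroup.card_eq_one] at hc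
      exact hK (hc ▸ inferInstance)
    by_cases h2 : K.map (MonoidHom.fst A H) = ⊤
    · have hN : (K.comap (MonoidHom.inl A H)).Normal := ⟨fun a ha g => by
        obtain ⟨⟨g', h⟩, hk, e⟩ : g ∈ K.map (MonoidHom.fst A H) := h2 ▸ Subgroup.mem_top g
        obtain rfl : g' = g := e
        have := K.mul_mem (K.mul_mem hk ha) (K.inv_mem hk)
        simpa using this⟩
      rcases hN.eq_bot_or_eq_top with e | e
      · exfalso
        have : Nat.card K ∣ Nat.card H := by
          apply Subgroup.card_dvd_of_injective ((MonoidHom.snd A H).comp K.subtype)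
          rw [injective_iff_map_eq_one]
          rintro ⟨⟨a, h⟩, hk⟩ ha
          obtain rfl : h = 1 := ha
          have : a ∈ K.comap (MonoidHom.inl A H) := hk
          rw [e, Subgroup.mem_bot] at this
          subst this; rfl
        rw [hc, h2, Subgroup.card_top, cardA, hH] at this
        have h3 : 3 ∣ 2 ^ n := (Dvd.intro (2 ^ i * 20) (by ring)).trans this
        exact absurd (Nat.prime_three.dvd_of_dvd_pow h3) (by norm_num)
      · have hKe : K = (⊤ : Subgroup A).prod (K.map (MonoidHom.snd A H)) := by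
          ext ⟨a, h⟩
          constructor
          · intro hk; exact ⟨trivial, _, hk, rfl⟩
          · rintro ⟨-, ⟨a', h'⟩, hk, e'⟩
            obtain rfl : h' = h := e'
            have : a * a'⁻¹ ∈ K.comap (MonoidHom.inl A H) := e ▸ Subgroup.mem_top _
            simpa using K.mul_mem this hk
        refine Or.inr (Or.inr (Or.inr ⟨_, ⟨K.map (MonoidHom.snd A H), fun hn => hK ?_, rfl⟩, ?_⟩))
        · rw [hKe]; infer_instance
        · conv_lhs => rw [hKe]
          rw [card_prod, Subgroup.card_top, cardA]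
    have h := ordersA _ h1 h2
    simp only [mem_insert, mem_singleton] at h
    rcases h with e | e | e | e | e | e | e <;> rw [e] at hc
    · exact Or.inl ⟨i + 1, by omega, by omega, by rw [hc]; ring⟩
    · exact Or.inr (Or.inl ⟨i, by omega, by rw [hc]; ring⟩)
    · exact Or.inl ⟨i + 2, by omega, by omega, by rw [hc]; ring⟩
    · exact Or.inr (Or.inr (Or.inl ⟨i, by omega, by rw [hc]; ring⟩))
    · exact Or.inr (Or.inl ⟨i + 1, by omega, by rw [hc]; ring⟩)
    · exact Or.inr (Or.inr (Or.inl ⟨i + 1, by omega, by rw [hc]; ring⟩))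
    · exact Or.inr (Or.inl ⟨i + 2, by omega, by rw [hc]; ring⟩)
  · have key : ∀ d ∈ ({2, 3, 4, 5, 10, 12} : Finset ℕ), ∀ i, i ≤ n → d * 2 ^ i ∈ NN (A × H) := by
      intro d hd i hi
      obtain ⟨U, hU, hc⟩ := exA d hd
      obtain ⟨V, hV⟩ := Sylow.exists_subgroup_card_pow_prime (G := H) 2 (n := i)
        (by rw [hH]; exact pow_dvd_pow 2 hi)
      exact ⟨U.prod V, nn_left V hU, by rw [card_prod, hc, hV]⟩
    rintro (⟨j, h1, h2, rfl⟩ | ⟨j, h2, rfl⟩ | ⟨j, h2, rfl⟩ | ⟨d, ⟨V, hV, rfl⟩, rfl⟩)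
    · by_cases h : j ≤ n + 1
      · obtain ⟨i, rfl⟩ : ∃ i, j = i + 1 := ⟨j - 1, by omega⟩
        convert key 2 (by decide) i (by omega) using 1; ring
      · obtain rfl : j = n + 2 := by omega
        convert key 4 (by decide) n le_rfl using 1; ring
    · by_cases h : j ≤ n
      · exact key 3 (by decide) j h
      · obtain ⟨i, rfl⟩ : ∃ i, j = i + 2 := ⟨j - 2, by omega⟩
        convert key 12 (by decide) i (by omega) using 1; ring
    · by_cases h : j ≤ n
      · exact key 5 (by decide) j h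
      · obtain rfl : j = n + 1 := by omega
        convert key 10 (by decide) n le_rfl using 1; ring
    · exact ⟨(⊤ : Subgroup A).prod V, nn_right _ hV, by rw [card_prod, Subgroup.card_top, cardA]⟩

/-! the modular group of order `2 ^ (m + 3)` -/

def ι (m : ℕ) (e : ZMod 2) : ZMod (2 ^ (m + 2)) := if e = 0 then 0 else 2 ^ (m + 1)

def π (m : ℕ) : ZMod (2 ^ (m + 2)) →+* ZMod 2 := ZMod.castHom (dvd_pow_self 2 (by omega)) _

theorem ι0 (m : ℕ) : ι m 0 = 0 := rfl
theorem ι1 (m : ℕ) : ι m 1 = 2 ^ (m + 1) := if_neg (by decide)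

theorem two_half (m : ℕ) : (2 : ZMod (2 ^ (m + 2))) ^ (m + 1) + 2 ^ (m + 1) = 0 := by
  have : ((2 ^ (m + 2) : ℕ) : ZMod (2 ^ (m + 2))) = 0 := ZMod.natCast_self _
  push_cast at this
  rw [← this]; ring

theorem half_ne (m : ℕ) : (2 : ZMod (2 ^ (m + 2))) ^ (m + 1) ≠ 0 := by
  intro h
  have : ((2 ^ (m + 1) : ℕ) : ZMod (2 ^ (m + 2))) = 0 := by push_cast; exact h
  rw [ZMod.natCast_eq_zero_iff, Nat.pow_dvd_pow_iff_le_right (by norm_num)] at this
  omega

theorem z2 (e : ZMod 2) : e = 0 ∨ e = 1 := by revert e; decide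

theorem ι_add (m : ℕ) (e f : ZMod 2) : ι m (e + f) = ι m e + ι m f := by
  rcases z2 e with rfl | rfl <;> rcases z2 f with rfl | rfl
  · simp [ι0]
  · simp [ι0]
  · simp [ι0]
  · rw [show (1 : ZMod 2) + 1 = 0 by decide, ι0, ι1, two_half]

theorem πι (m : ℕ) (e : ZMod 2) : π m (ι m e) = 0 := by
  rcases z2 e with rfl | rfl
  · simp [ι0]
  · rw [ι1, map_pow, map_ofNat, show (2 : ZMod 2) = 0 by decide]; simp

@[ext] structure M (m : ℕ) where
  x : ZMod (2 ^ (m + 2))
  e : ZMod 2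

instance (m : ℕ) : Mul (M m) := ⟨fun a b => ⟨a.x + b.x + ι m (a.e * π m b.x), a.e + b.e⟩⟩
instance (m : ℕ) : One (M m) := ⟨⟨0, 0⟩⟩
instance (m : ℕ) : Inv (M m) := ⟨fun a => ⟨-a.x + ι m (a.e * π m a.x), -a.e⟩⟩

@[simp] theorem mul_x {m : ℕ} (a b : M m) : (a * b).x = a.x + b.x + ι m (a.e * π m b.x) := rfl
@[simp] theorem mul_e {m : ℕ} (a b : M m) : (a * b).e = a.e + b.e := rfl
@[simp] theorem one_x {m : ℕ} : (1 : M m).x = 0 := rfl
@[simp] theorem one_e {m : ℕ} : (1 : M m).e = 0 := rfl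
@[simp] theorem inv_x {m : ℕ} (a : M m) : (a⁻¹).x = -a.x + ι m (a.e * π m a.x) := rfl
@[simp] theorem inv_e {m : ℕ} (a : M m) : (a⁻¹).e = -a.e := rfl

instance (m : ℕ) : Group (M m) := Group.ofLeftAxioms
  (fun a b c => by
    ext
    · simp only [mul_x, mul_e, map_add, πι, add_zero, add_mul, mul_add, ι_add]; ring
    · simp only [mul_e]; ring)
  (fun a => by ext <;> simp [ι0])
  (fun a => by
    ext
    · simp only [mul_x, inv_x, inv_e, one_x]
      rw [add_right_comm (-a.x), neg_add_cancel, zero_add, ← ι_add, neg_mul, add_neg_cancel, ι0]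
    · exact neg_add_cancel _)

def eqM (m : ℕ) : M m ≃ ZMod (2 ^ (m + 2)) × ZMod 2 :=
  ⟨fun a => (a.x, a.e), fun a => ⟨a.1, a.2⟩, fun _ => rfl, fun _ => rfl⟩

instance (m : ℕ) : Finite (M m) := Finite.of_equiv _ (eqM m).symm

abbrev E (s : ℕ) := Multiplicative (ZMod (2 ^ s))

theorem cardE (s : ℕ) : Nat.card (E s) = 2 ^ s := by
  rw [Nat.card_congr Multiplicative.toAdd, Nat.card_zmod]

theorem cardH (m s : ℕ) : Nat.card (M m × E s) = 2 ^ (m + s + 3) := by
  rw [Nat.card_prod, Nat.card_congr (eqM m), Nat.card_prod, Nat.card_zmod, Nat.card_zmod, cardE]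
  ring

theorem reach (m : ℕ) (x : ZMod (2 ^ (m + 2))) (hx : x ≠ 0) : ∃ k : ℕ, k • x = 2 ^ (m + 1) := by
  have h1 : addOrderOf x ∣ 2 ^ (m + 2) := by
    have := addOrderOf_dvd_natCard x
    rwa [Nat.card_zmod] at this
  obtain ⟨r, -, hr⟩ := (Nat.dvd_prime_pow Nat.prime_two).1 h1
  obtain ⟨r, rfl⟩ : ∃ t, r = t + 1 := by
    rcases r with _ | r
    · exact absurd (AddMonoid.addOrderOf_eq_one_iff.1 hr) hx
    · exact ⟨r, rfl⟩
  refine ⟨2 ^ r, ?_⟩
  have h2 : (2 ^ r : ℕ) • x ≠ 0 := nsmul_ne_zero_of_lt_addOrderOf (by positivity)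
    (by rw [hr]; exact Nat.pow_lt_pow_right (by norm_num) (by omega))
  have h3 : -((2 ^ r : ℕ) • x) = (2 ^ r : ℕ) • x := by
    rw [neg_eq_iff_add_eq_zero, ← add_nsmul, ← two_mul, ← pow_succ', ← hr, addOrderOf_nsmul_eq_zero]
  have h4 := (ZMod.neg_eq_self_iff _).1 h3 |>.resolve_left h2
  have h5 : ((2 ^ r : ℕ) • x).val = 2 ^ (m + 1) := by
    have : 2 ^ (m + 2) = 2 ^ (m + 1) * 2 := pow_succ 2 (m + 1)
    omega
  rw [← ZMod.natCast_zmod_val ((2 ^ r : ℕ) • x), h5]; simp

theorem pow_x {m : ℕ} (x : ZMod (2 ^ (m + 2))) (k : ℕ) : (⟨x, 0⟩ : M m) ^ k = ⟨k • x, 0⟩ := by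
  induction k with
  | zero => ext <;> simp
  | succ k ih => rw [pow_succ, ih]; ext <;> simp [ι0, succ_nsmul, add_mul]

def T (m : ℕ) : Subgroup (M m) where
  carrier := {a | a.x = 0}
  one_mem' := rfl
  mul_mem' := by
    intro a b ha hb
    show a.x + b.x + _ = 0
    rw [show a.x = 0 from ha, show b.x = 0 from hb]; simp [ι0]
  inv_mem' := by
    intro a ha
    show -a.x + _ = 0
    rw [show a.x = 0 from ha]; simp [ι0]

theorem cardT (m : ℕ) : Nat.card (T m) = 2 := by
  rw [← Nat.card_zmod 2]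
  exact Nat.card_congr ⟨fun a => a.1.e, fun e => ⟨⟨0, e⟩, rfl⟩,
    fun a => Subtype.ext (M.ext a.2.symm rfl), fun _ => rfl⟩

theorem T_nn (m : ℕ) : ¬ (T m).Normal := by
  intro h
  have : ((⟨1, 0⟩ : M m) * ⟨0, 1⟩ * ⟨1, 0⟩⁻¹).x = 0 := h.conj_mem ⟨0, 1⟩ rfl ⟨1, 0⟩
  simp [ι0, show (-1 : ZMod 2) = 1 by decide, ι1] at this
  exact half_ne m (by simp [this])

def ψ (m : ℕ) : M m →* Multiplicative (ZMod 2) where
  toFun a := Multiplicative.ofAdd a.e
  map_one' := rfl
  map_mul' _ _ := rfl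

theorem NN_H (m s x : ℕ) : x ∈ NN (M m × E s) ↔ ∃ j, 1 ≤ j ∧ j ≤ s + 1 ∧ x = 2 ^ j := by
  constructor
  · rintro ⟨K, hK, rfl⟩
    have hz : ((⟨2 ^ (m + 1), 0⟩, 1) : M m × E s) ∉ K := by
      intro hz
      refine hK ⟨fun k hk g => ?_⟩
      have e : g * k * g⁻¹ = (⟨ι m (g.1.e * π m k.1.x + k.1.e * π m g.1.x), 0⟩, 1) * k := by
        refine Prod.ext (M.ext ?_ ?_) ?_
        · have h2 : ι m (g.1.e * π m g.1.x) + ι m (g.1.e * π m g.1.x) = 0 := by
            rw [← ι_add, CharTwo.add_self_eq_zero, ι0]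
          simp only [Prod.fst_mul, Prod.fst_inv, mul_x, mul_e, inv_x, map_add, map_neg, πι,
            add_zero, CharTwo.neg_eq, add_mul, ι_add, zero_mul, ι0]
          linear_combination h2
        · simp only [Prod.fst_mul, Prod.fst_inv, mul_e, inv_e]; ring
        · simp
      rw [e]
      refine K.mul_mem ?_ hk
      rcases z2 (g.1.e * π m k.1.x + k.1.e * π m g.1.x) with h | h <;> rw [h]
      · exact K.one_mem
      · rw [ι1]; exact hz
    have hd : Nat.card K ∣ Nat.card (Multiplicative (ZMod 2) × E s) := by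
      apply Subgroup.card_dvd_of_injective (((ψ m).prodMap (MonoidHom.id _)).comp K.subtype)
      rw [injective_iff_map_eq_one]
      rintro ⟨⟨⟨x, e⟩, f⟩, hk⟩ h
      obtain rfl : e = 0 := congrArg Prod.fst h
      obtain rfl : f = 1 := congrArg Prod.snd h
      by_cases hx : x = 0
      · subst hx; rfl
      · obtain ⟨k, hk'⟩ := reach m x hx
        have := K.pow_mem hk k
        rw [Prod.pow_mk, pow_x, hk', one_pow] at this
        exact absurd this hz
    rw [Nat.card_prod, cardE, Nat.card_congr Multiplicative.toAdd, Nat.card_zmod, ← pow_succ',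
      Nat.dvd_prime_pow Nat.prime_two] at hd
    obtain ⟨i, hi, hc⟩ := hd
    refine ⟨i, ?_, hi, hc⟩
    by_contra h0
    obtain rfl : i = 0 := by omega
    rw [pow_zero, Subgroup.card_eq_one] at hc
    exact hK (hc ▸ inferInstance)
  · rintro ⟨j, h1, h2, rfl⟩
    obtain ⟨i, rfl⟩ : ∃ i, j = i + 1 := ⟨j - 1, by omega⟩
    obtain ⟨V, hV⟩ := Sylow.exists_subgroup_card_pow_prime (G := E s) 2 (n := i)
      (by rw [cardE]; exact pow_dvd_pow 2 (by omega))
    exact ⟨(T m).prod V, nn_left V (T_nn m), by rw [card_prod, cardT, hV]; ring⟩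

theorem odd_inj {c c' j j' : ℕ} (hc : Odd c) (hc' : Odd c') (h : c * 2 ^ j = c' * 2 ^ j') :
    c = c' ∧ j = j' := by
  wlog hj : j ≤ j' generalizing c c' j j'
  · have := this hc' hc h.symm (by omega)
    exact ⟨this.1.symm, this.2.symm⟩
  obtain ⟨d, rfl⟩ := Nat.exists_eq_add_of_le hj
  have h1 : c = c' * 2 ^ d := by
    apply Nat.eq_of_mul_eq_mul_right (Nat.two_pow_pos j)
    rw [h]; ring
  rcases d with _ | d
  · simpa using h1
  · exfalso
    rw [h1, pow_succ, ← mul_assoc, ← Nat.not_even_iff_odd] at hc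
    exact hc (even_two.mul_left _)

theorem ie_G (m s : ℕ) : ie (A × (M m × E s)) = 3 * m + 4 * s + 17 := by
  let n := m + s + 3
  let F : Finset (ℕ × ℕ) := (({1} ×ˢ Icc 1 (n + 2)) ∪ ({3} ×ˢ range (n + 3))) ∪
    (({5} ×ˢ range (n + 2)) ∪ ({15} ×ˢ Icc 3 (s + 3)))
  have hF : NN (A × (M m × E s)) = ↑(F.image fun p => p.1 * 2 ^ p.2) := by
    ext x
    rw [NN_prod (n := n) (by omega) (cardH m s)]
    simp only [F, coe_image, Set.mem_image, mem_coe, mem_union, mem_product, mem_singleton,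
      mem_Icc, mem_range, Prod.exists, NN_H]
    constructor
    · rintro (⟨j, h1, h2, rfl⟩ | ⟨j, h2, rfl⟩ | ⟨j, h2, rfl⟩ | ⟨d, ⟨j, h1, h2, rfl⟩, rfl⟩)
      · exact ⟨1, j, by omega, one_mul _⟩
      · exact ⟨3, j, by omega, rfl⟩
      · exact ⟨5, j, by omega, rfl⟩
      · exact ⟨15, j + 2, by omega, by ring⟩
    · rintro ⟨c, j, ((⟨rfl, h⟩ | ⟨rfl, h⟩) | (⟨rfl, h⟩ | ⟨rfl, h⟩)), rfl⟩
      · exact Or.inl ⟨j, h.1, h.2, one_mul _⟩
      · exact Or.inr (Or.inl ⟨j, by omega, rfl⟩)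
      · exact Or.inr (Or.inr (Or.inl ⟨j, by omega, rfl⟩))
      · obtain ⟨i, rfl⟩ : ∃ i, j = i + 2 := ⟨j - 2, by omega⟩
        exact Or.inr (Or.inr (Or.inr ⟨_, ⟨i, by omega, by omega, rfl⟩, by ring⟩))
  have hodd : ∀ p ∈ F, Odd p.1 := by
    intro p hp
    simp only [F, mem_union, mem_product, mem_singleton] at hp
    rcases hp with (h | h) | (h | h) <;> rw [h.1] <;> decide
  rw [ie, hF, Set.ncard_coe_finset, card_image_of_injOn]
  · simp only [F]
    rw [card_union_of_disjoint, card_union_of_disjoint, card_union_of_disjoint]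
    · simp only [card_product, card_singleton, Nat.card_Icc, card_range, n]; omega
    all_goals
      rw [disjoint_left]
      intro p h1 h2
      simp only [mem_union, mem_product, mem_singleton] at h1 h2
      omega
  · intro p hp q hq h
    have := odd_inj (hodd p hp) (hodd q hq) h
    exact Prod.ext this.1 this.2

theorem exists_G (k : ℕ) (hk : 23 ≤ k) : ∃ (G : Type) (_ : Group G), Finite G ∧
    ¬ Group.IsSolvable G ∧ ¬ IsSimpleGroup G ∧ ie G = k := by
  obtain ⟨m, s, h⟩ : ∃ m s, 3 * m + 4 * s + 17 = k :=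
    ⟨(k - 17 - 4 * ((k - 17) % 3)) / 3, (k - 17) % 3, by omega⟩
  refine ⟨A × (M m × E s), inferInstance, inferInstance, fun hs => ?_, fun hs => ?_, h ▸ ie_G m s⟩
  · have : Group.IsSolvable A := Group.isSolvable_of_surjective
      (f := MonoidHom.fst A (M m × E s)) Prod.fst_surjective
    have hc := IsSimpleGroup.comm_iff_isSolvable.2 this
    obtain ⟨U, hU, -⟩ := exA 2 (by decide)
    exact hU ⟨fun x hx g => by rwa [hc g x, mul_inv_cancel_right]⟩
  · have hn : ((⊤ : Subgroup A).prod (⊥ : Subgroup (M m × E s))).Normal := inferInstance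
    have hc := card_prod (⊤ : Subgroup A) (⊥ : Subgroup (M m × E s))
    rw [Subgroup.card_top, cardA, Subgroup.card_bot] at hc
    rcases hn.eq_bot_or_eq_top with e | e <;> rw [e] at hc
    · simp at hc
    · rw [Subgroup.card_top, Nat.card_prod, cardA, cardH] at hc
      have : 1 < 2 ^ (m + s + 3) := Nat.one_lt_two_pow (by omega)
      omega

theorem result :
    {k : ℕ | 0 < k ∧ ∀ (G : Type) [Group G], Finite G → ie G = k → Group.IsSolvable G}.Finite ∧
    {k : ℕ | 0 < k ∧ (∃ (G : Type) (_ : Group G), Finite G ∧ IsSimpleGroup G ∧ ie G = k) ∧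
      ¬ ∃ (G : Type) (_ : Group G), Finite G ∧ ¬ Group.IsSolvable G ∧ ¬ IsSimpleGroup G ∧
        ie G = k}.Finite := by
  constructor
  · refine (Set.finite_lt_nat 23).subset fun k hk => ?_
    by_contra h
    obtain ⟨G, _, h1, h2, -, h4⟩ := exists_G k (by simpa using h)
    exact h2 (hk.2 G h1 h4)
  · refine (Set.finite_lt_nat 23).subset fun k hk => ?_
    by_contra h
    exact hk.2.2 (exists_G k (by simpa using h))

end Pool.Agent.Results.MP_927db0_al.Q1
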